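import Pool.Agent.R943.LieSL.Main

/-!
# The Lie exponent of `SL(n, ℝ)` is finite exactly for `n ≥ 3`

The definitions (`IsSubmanifold`, `dimSL`, `rankSL`, `lieExponent`) are in
`Pool.Agent.R943.LieSL.Defs`, those of `Q(X)` and of the triple product property in
`Pool.Agent.W964.LieExp.Defs`.

For `n ≥ 3` the following three submanifolds of `SL(n, ℝ)` satisfy the triple product property:
the group of the upper triangular matrices with positive diagonal entries `a_0, ..., a_{n-1}` such
that `∑ i log a_i = 0`, of dimension `n (n - 1) / 2 + (n - 2)`; the group of the lower unipotent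
matrices, of dimension `n (n - 1) / 2`; and the open piece of `SO(n)` of the orthogonal matrices
that do not have the eigenvalue `-1`, of dimension `n (n - 1) / 2`. Indeed let `s t = o` with `s` in
the first group, `t` in the second one and `o` orthogonal. The trailing principal minors of `o` are
the products `a_k ... a_{n-1}`, so these are at most `1`; as `∏_k (a_k ... a_{n-1}) = 1` they are
all `1`; then `s` and `t` are unipotent, and one finds `s = t = o = 1` column by column.

For `n = 2` invariance of domain shows that a triple with the triple product property has total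
dimension at most `3`.
-/

set_option autoImplicit false

open Matrix Set
open Pool.Agent.W964.LieExp (quotients TripleProductProperty)
open Pool.Agent.R943.LieSL

namespace Pool.Agent.Results.MP_9660fa_lc.FiniteIffThreeLe

/-- **Theorem.** (1) For `n ≥ 2` the Lie exponent of `SL(n, ℝ)` is finite if and only if `n ≥ 3`.
(2) In terms of submanifolds: for `n ≥ 2` there are submanifolds `M₁, M₂, M₃` of `SL(n, ℝ)` with the
triple product property and with `dim M₁ + dim M₂ + dim M₃ > 3 n (n - 1) / 2` if and only if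
`n ≥ 3`. (3) For `n ≥ 3` the Lie exponent of `SL(n, ℝ)` is at least `2 (n - 1) / (n - 2)` and at
most `3 (n - 1) / (n - 2)`. (4) The Lie exponent of `SL(2, ℝ)` is `+∞` and that of `SL(3, ℝ)` is
`6`. -/
theorem result :
    (∀ n : ℕ, 2 ≤ n → (lieExponent n < ⊤ ↔ 3 ≤ n)) ∧
    (∀ n : ℕ, 2 ≤ n →
      ((∃ (M₁ M₂ M₃ : Set (SpecialLinearGroup (Fin n) ℝ)) (m₁ m₂ m₃ : ℕ),
        IsSubmanifold m₁ M₁ ∧ IsSubmanifold m₂ M₂ ∧ IsSubmanifold m₃ M₃ ∧
        TripleProductProperty M₁ M₂ M₃ ∧
        3 * (n : ℝ) * ((n : ℝ) - 1) / 2 < (m₁ : ℝ) + m₂ + m₃) ↔ 3 ≤ n)) ∧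
    (∀ n : ℕ, 3 ≤ n →
      ((2 * ((n : ℝ) - 1) / ((n : ℝ) - 2) : ℝ) : EReal) ≤ lieExponent n ∧
      lieExponent n ≤ ((3 * ((n : ℝ) - 1) / ((n : ℝ) - 2) : ℝ) : EReal)) ∧
    lieExponent 2 = ⊤ ∧ lieExponent 3 = ((6 : ℝ) : EReal) := by
  have key : ∀ n : ℕ, 2 ≤ n → (HasLargeTriple n ↔ 3 ≤ n) := by
    intro n hn
    constructor
    · intro h
      by_contra h3
      have : n = 2 := by omega
      subst this
      exact not_hasLargeTriple_two h
    · exact hasLargeTriple
  refine ⟨?_, key, ?_, ?_, lieExponent_three⟩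
  · intro n hn
    rw [lieExponent_lt_top_iff]
    exact key n hn
  · intro n hn
    exact ⟨le_lieExponent hn, lieExponent_le hn⟩
  · by_contra h
    exact not_hasLargeTriple_two ((lieExponent_lt_top_iff 2).1 (lt_top_iff_ne_top.2 h))

end Pool.Agent.Results.MP_9660fa_lc.FiniteIffThreeLe
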